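import Pool.Agent.W86.Urn3

/-!
# Interacting urns with full interaction: monopoly can fail for every number `d ≥ 2` of urns

For every `d ≥ 2` and every `g : ℕ → ℝ` there is a strong reinforcement sequence `W ≥ g` for which
monopoly fails with positive probability from every initial composition whose total number of
balls is divisible by `d`, and for which the probability of monopoly tends to `0` along the
initial compositions with `2 ^ k` balls of each colour in each urn, `k` odd.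
-/

set_option autoImplicit false
open Filter Topology MeasureTheory ProbabilityTheory
open scoped ENNReal
open Pool.Agent.W86.Urn

namespace Pool.Agent.Results.MP_0b3b8e_pr.EveryNumberOfUrns

/-- `n` lies in the `k`-th zone. -/
def Zone (d k n : ℕ) : Prop := 2 ^ k ≤ n / d ∧ n / d < 2 * 2 ^ k

/-- a residue class modulo `d` which is special in zone `k` (the total number of balls is
congruent to `s`) -/
def tau (s k : ℕ) : ℕ := if k % 2 = 0 then 0 else if s = 1 then 2 else 1

/-- `n` lies in a residue class modulo `d` which is special in zone `k`: the classes of `tau` and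
of `s - tau` -/
def Sp (d s k n : ℕ) : Prop := n % d = tau s k ∨ (n + tau s k) % d = s

/-- admissible pairs of a number of urns and a residue -/
def Adm (d s : ℕ) : Prop := 2 ≤ d ∧ s < d ∧ (d = 2 → s = 0)

lemma mod_sum {d s a b : ℕ} (hs : s < d) (ha : a < d) (hb : b < d) :
    (a + b) % d = s ↔ a + b = s ∨ a + b = s + d := by
  rcases Nat.lt_or_ge (a + b) d with h1 | h1
  · rw [Nat.mod_eq_of_lt h1]
    omega
  · rw [Nat.mod_eq_sub_mod h1, Nat.mod_eq_of_lt (by omega)]
    omega

lemma tau_lt {d s : ℕ} (h : Adm d s) (k : ℕ) : tau s k < d := by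
  obtain ⟨h1, h2, h3⟩ := h
  unfold tau
  split_ifs <;> omega

lemma Sp_def {d s : ℕ} (h : Adm d s) (k n : ℕ) : Sp d s k n ↔
    n % d = tau s k ∨ n % d + tau s k = s ∨ n % d + tau s k = s + d := by
  have h0 := tau_lt h k
  have hn := Nat.mod_lt n (lt_of_lt_of_le (by norm_num) h.1 : 0 < d)
  unfold Sp
  rw [← mod_sum h.2.1 hn h0, Nat.add_mod n, Nat.mod_eq_of_lt h0]

open Classical in
/-- The reinforcement sequence: in zone `k` it has the constant value `2 ^ A k` outside the
special classes and increases very fast on the special classes. -/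
noncomputable def Wt (d s : ℕ) (A : ℕ → ℕ) (n : ℕ) : ℝ :=
  if Sp d s (Nat.log 2 (n / d)) n then
    2 ^ (8 * d * 2 ^ Nat.log 2 (n / d) * (n + A (Nat.log 2 (n / d)) + A (Nat.log 2 (n / d) + 1)))
  else 2 ^ A (Nat.log 2 (n / d))

lemma log_zone {d k n : ℕ} (h : Zone d k n) : Nat.log 2 (n / d) = k := by
  apply Nat.log_eq_of_pow_le_of_lt_pow h.1
  rw [pow_succ, mul_comm]
  exact h.2

lemma W_sp {d s k n : ℕ} {A : ℕ → ℕ} (h : Zone d k n) (hs : Sp d s k n) :
    Wt d s A n = 2 ^ (8 * d * 2 ^ k * (n + A k + A (k + 1))) := by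
  unfold Wt
  rw [log_zone h, if_pos hs]

lemma W_low {d s k n : ℕ} {A : ℕ → ℕ} (h : Zone d k n) (hs : ¬ Sp d s k n) : Wt d s A n = 2 ^ A k := by
  unfold Wt
  rw [log_zone h, if_neg hs]

lemma Wt_pos (d s : ℕ) (A : ℕ → ℕ) (n : ℕ) : 0 < Wt d s A n := by
  unfold Wt; split_ifs <;> positivity

lemma Wt_nonneg (d s : ℕ) (A : ℕ → ℕ) (n : ℕ) : 0 ≤ Wt d s A n := (Wt_pos d s A n).le

lemma Wt_ge {d s : ℕ} (hd : 2 ≤ d) (A : ℕ → ℕ) (n : ℕ) :
    (2 : ℝ) ^ A (Nat.log 2 (n / d)) ≤ Wt d s A n := by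
  unfold Wt
  split_ifs
  · refine pow_le_pow_right₀ (by norm_num) ?_
    have h1 : 1 ≤ 8 * d * 2 ^ Nat.log 2 (n / d) :=
      Nat.mul_pos (by omega) (by positivity)
    calc A (Nat.log 2 (n / d)) ≤
        1 * (n + A (Nat.log 2 (n / d)) + A (Nat.log 2 (n / d) + 1)) := by omega
      _ ≤ _ := Nat.mul_le_mul_right _ h1
  · exact le_rfl

lemma Sp_iff {d s : ℕ} (h : Adm d s) (k : ℕ) {x y : ℕ} (hxy : (x + y) % d = s) :
    Sp d s k x ↔ Sp d s k y := by
  have hd : 0 < d := lt_of_lt_of_le (by norm_num) h.1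
  have hx := Nat.mod_lt x hd
  have hy := Nat.mod_lt y hd
  have ht := tau_lt h k
  have hs := h.2.1
  rw [Nat.add_mod, mod_sum h.2.1 hx hy] at hxy
  rw [Sp_def h, Sp_def h]
  omega

lemma Sp_next {d s : ℕ} (h : Adm d s) {k x : ℕ} (hx : Sp d s k x) :
    ¬ Sp d s (k + 1) x := by
  have hd : 0 < d := lt_of_lt_of_le (by norm_num) h.1
  have hx' := Nat.mod_lt x hd
  rw [Sp_def h] at hx ⊢
  obtain ⟨h1, h2, h3⟩ := h
  unfold tau at *
  rcases Nat.mod_two_eq_zero_or_one k with hk | hk
  · have hk' : (k + 1) % 2 = 1 := by omega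
    rw [if_pos hk] at hx
    rw [if_neg (by omega : ¬ (k + 1) % 2 = 0)]
    split_ifs <;> omega
  · rw [if_neg (by omega : ¬ k % 2 = 0)] at hx
    rw [if_pos (by omega : (k + 1) % 2 = 0)]
    split_ifs at hx <;> omega

lemma Sp_add {d s k x : ℕ} : Sp d s k (x + d) ↔ Sp d s k x := by
  unfold Sp
  rw [Nat.add_mod_right, show x + d + tau s k = x + tau s k + d by ring, Nat.add_mod_right]

/-- the good pairs of totals -/
def Gd (d s b r : ℕ) : Prop := (b + r) % d = s ∧ ∃ k, (Zone d k b ∧ Zone d k r) ∨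
  (b / d = 2 * 2 ^ k ∧ Zone d k r ∧ Sp d s k b) ∨ (r / d = 2 * 2 ^ k ∧ Zone d k b ∧ Sp d s k r)

noncomputable instance (d s : ℕ) : ∀ b r, Decidable (Gd d s b r) := fun _ _ => Classical.dec _

lemma Gd_symm {d s b r : ℕ} (h : Gd d s b r) : Gd d s r b := by
  obtain ⟨h0, k, h⟩ := h
  refine ⟨by rw [add_comm]; exact h0, k, ?_⟩
  tauto

lemma Gd_le {d s : ℕ} (hd : 2 ≤ d) (b r : ℕ) (h : Gd d s b r) : b ≤ 3 * r + 1 ∧ r ≤ 3 * b + 1 := by
  have hd0 : 0 < d := by omega
  have key : ∀ {x y k : ℕ}, 2 ^ k ≤ x / d → y / d ≤ 2 * 2 ^ k → y ≤ 3 * x + 1 := by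
    intro x y k h1 h2
    rw [Nat.le_div_iff_mul_le hd0] at h1
    have h3 : y < (2 * 2 ^ k + 1) * d := (Nat.div_lt_iff_lt_mul hd0).1 (by omega)
    have h4 : d ≤ 2 ^ k * d := Nat.le_mul_of_pos_left d (by positivity)
    have e : (2 * 2 ^ k + 1) * d = 2 * (2 ^ k * d) + d := by ring
    rw [e] at h3
    omega
  obtain ⟨_, k, ⟨hb, hr⟩ | ⟨hb, hr, _⟩ | ⟨hr, hb, _⟩⟩ := h
  · exact ⟨key hr.1 hb.2.le, key hb.1 hr.2.le⟩
  · exact ⟨key hr.1 hb.le, key (k := k) (by omega) hr.2.le⟩
  · exact ⟨key (k := k) (by omega) hb.2.le, key hb.1 hr.le⟩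

/-- survival probability for `d` urns -/
noncomputable def St (d s : ℕ) (A : ℕ → ℕ) (n b r : ℕ) : ℝ := surv d (Wt d s A) (Gd d s) n b r

section
variable {d s : ℕ} {A : ℕ → ℕ}

lemma St_nonneg (n b r : ℕ) : 0 ≤ St d s A n b r := surv_nonneg (Wt_nonneg d s A) _ n b r

lemma St_zero {b r : ℕ} (h : Gd d s b r) : St d s A 0 b r = 1 := by
  unfold St surv; rw [if_pos h]

lemma St_succ {b r : ℕ} (h : Gd d s b r) (n : ℕ) : St d s A (n + 1) b r =
    ∑ j ∈ Finset.range (d + 1),
      (d.choose j : ℝ) * (pr (Wt d s A) b r ^ j * (1 - pr (Wt d s A) b r) ^ (d - j)) *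
        St d s A n (b + j) (r + (d - j)) := by
  unfold St
  rw [surv, if_pos h]

lemma St_off {b r : ℕ} (h : ¬ Gd d s b r) (n : ℕ) : St d s A n b r = 0 := by
  unfold St
  cases n <;> unfold surv <;> rw [if_neg h]

lemma pr_swap (b r : ℕ) : pr (Wt d s A) r b = 1 - pr (Wt d s A) b r := by
  unfold pr
  have h1 := Wt_pos d s A b
  have h2 := Wt_pos d s A r
  have h3 : Wt d s A b + Wt d s A r ≠ 0 := by positivity
  rw [add_comm (Wt d s A r) (Wt d s A b), eq_sub_iff_add_eq, ← add_div,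
    add_comm (Wt d s A r) (Wt d s A b), div_self h3]

lemma p0 (b r : ℕ) : 0 ≤ pr (Wt d s A) b r := pr_nonneg (Wt_nonneg d s A) b r
lemma p1 (b r : ℕ) : pr (Wt d s A) b r ≤ 1 := pr_le_one (Wt_nonneg d s A) b r

lemma sum_wt (d : ℕ) (p : ℝ) :
    ∑ j ∈ Finset.range (d + 1), (d.choose j : ℝ) * (p ^ j * (1 - p) ^ (d - j)) = 1 := by
  have h := add_pow p (1 - p) d
  rw [add_sub_cancel, one_pow] at h
  refine Eq.trans (Finset.sum_congr rfl fun j _ => ?_) h.symm
  ring

lemma wt_nonneg {p : ℝ} (h0 : 0 ≤ p) (h1 : p ≤ 1) (j : ℕ) :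
    0 ≤ (d.choose j : ℝ) * (p ^ j * (1 - p) ^ (d - j)) :=
  mul_nonneg (Nat.cast_nonneg _) (mul_nonneg (pow_nonneg h0 _) (pow_nonneg (by linarith) _))

lemma St_le_one (n b r : ℕ) : St d s A n b r ≤ 1 := by
  induction n generalizing b r with
  | zero =>
    by_cases h : Gd d s b r
    · rw [St_zero h]
    · rw [St_off h]; norm_num
  | succ n ih =>
    by_cases h : Gd d s b r
    · rw [St_succ h]
      refine le_trans (Finset.sum_le_sum fun j _ => ?_) (sum_wt d (pr (Wt d s A) b r)).le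
      exact mul_le_of_le_one_right (wt_nonneg (p0 b r) (p1 b r) j) (ih _ _)
    · rw [St_off h]; norm_num

lemma St_symm (n b r : ℕ) : St d s A n b r = St d s A n r b := by
  induction n generalizing b r with
  | zero =>
    by_cases h : Gd d s b r
    · rw [St_zero h, St_zero (Gd_symm h)]
    · rw [St_off h, St_off (fun h' => h (Gd_symm h'))]
  | succ n ih =>
    by_cases h : Gd d s b r
    · rw [St_succ h, St_succ (Gd_symm h), ← Finset.sum_range_reflect]
      refine Finset.sum_congr rfl fun j hj => ?_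
      have hj' : j ≤ d := by simpa [Nat.lt_succ_iff] using hj
      have e1 : d + 1 - 1 - j = d - j := by omega
      have e2 : d - (d - j) = j := by omega
      rw [e1, e2, Nat.choose_symm hj', pr_swap b r, ih (b + (d - j)) (r + j)]
      ring
    · rw [St_off h, St_off (fun h' => h (Gd_symm h'))]

/-- a step with a dominating total -/
lemma step_det {n x y : ℕ} (hG : Gd d s x y)
    (hW : Wt d s A y * 2 ^ (x + y + d) ≤ Wt d s A x) {c : ℝ}
    (hc : c - (1 / 2) ^ (x + y + d) ≤ St d s A n (x + d) y) :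
    c - (1 / 2) ^ (x + y) ≤ St d s A (n + 1) x y := by
  set p := pr (Wt d s A) x y with hp
  have hx := Wt_pos d s A x
  have hy := Wt_pos d s A y
  have h0 : 0 ≤ p := p0 x y
  have h1 : p ≤ 1 := p1 x y
  have hq : 1 - p ≤ (1 / 2) ^ (x + y + d) := by
    have e : 1 - p = Wt d s A y / (Wt d s A x + Wt d s A y) := by
      rw [hp]; unfold pr; field_simp; ring
    rw [e, one_div_pow, div_le_div_iff₀ (by positivity) (by positivity), one_mul]
    linarith
  have hsum : p ^ d * St d s A n (x + d) y ≤ St d s A (n + 1) x y := by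
    rw [St_succ hG, ← hp]
    have := Finset.single_le_sum (f := fun j => (d.choose j : ℝ) * (p ^ j * (1 - p) ^ (d - j)) *
        St d s A n (x + j) (y + (d - j))) (s := Finset.range (d + 1))
      (fun j _ => mul_nonneg (wt_nonneg h0 h1 j) (St_nonneg _ _ _))
      (Finset.mem_range.2 (Nat.lt_succ_self d))
    simpa using this
  have hbern : 1 - d * (1 - p) ≤ p ^ d := by
    have := one_add_mul_le_pow (a := p - 1) (by linarith : (-2 : ℝ) ≤ p - 1) d
    have e : 1 + (p - 1) = p := by ring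
    rw [e] at this
    linarith
  have hd2 : ((d : ℝ) + 1) ≤ 2 ^ d := by
    exact_mod_cast Nat.succ_le_of_lt (Nat.lt_two_pow_self (n := d))
  have hs0 := St_nonneg (d := d) (s := s) (A := A) n (x + d) y
  have hs1 := St_le_one (d := d) (s := s) (A := A) n (x + d) y
  have e : ((1 : ℝ) / 2) ^ (x + y) = 2 ^ d * (1 / 2) ^ (x + y + d) := by
    rw [pow_add _ (x + y) d, one_div_pow (2 : ℝ) d]
    field_simp
  have hε : (0 : ℝ) ≤ (1 / 2) ^ (x + y + d) := by positivity
  have k1 : (1 - d * (1 - p)) * St d s A n (x + d) y ≤ p ^ d * St d s A n (x + d) y :=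
    mul_le_mul_of_nonneg_right hbern hs0
  have k2 : (d * (1 - p)) * St d s A n (x + d) y ≤ d * (1 / 2) ^ (x + y + d) := by
    have a1 : (d : ℝ) * (1 - p) ≤ d * (1 / 2) ^ (x + y + d) :=
      mul_le_mul_of_nonneg_left hq (Nat.cast_nonneg _)
    have a2 : 0 ≤ (d : ℝ) * (1 - p) := mul_nonneg (Nat.cast_nonneg _) (by linarith)
    calc (d * (1 - p)) * St d s A n (x + d) y ≤ (d * (1 - p)) * 1 :=
          mul_le_mul_of_nonneg_left hs1 a2
      _ ≤ _ := by rw [mul_one]; exact a1
  have k3 : ((d : ℝ) + 1) * (1 / 2) ^ (x + y + d) ≤ 2 ^ d * (1 / 2) ^ (x + y + d) :=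
    mul_le_mul_of_nonneg_right hd2 hε
  rw [e]
  linarith

/-- a random step -/
lemma step_rand {n x y : ℕ} (hG : Gd d s x y) (hW : Wt d s A x = Wt d s A y) {c₁ c₂ : ℝ}
    (hc : c₂ ≤ c₁) {j₀ : ℕ} (hj₀ : j₀ ≤ d) (h₁ : c₁ ≤ St d s A n (x + j₀) (y + (d - j₀)))
    (h₂ : ∀ j, j ≤ d → c₂ ≤ St d s A n (x + j) (y + (d - j))) :
    c₂ + (1 / 2) ^ d * (c₁ - c₂) ≤ St d s A (n + 1) x y := by
  have hp : pr (Wt d s A) x y = 1 / 2 := by
    unfold pr
    rw [hW]
    have := Wt_pos d s A y
    field_simp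
    norm_num
  have hw : ∀ j, j ≤ d → ((1 : ℝ) / 2) ^ j * (1 - 1 / 2) ^ (d - j) = (1 / 2) ^ d := by
    intro j hj
    rw [show (1 : ℝ) - 1 / 2 = 1 / 2 by norm_num, ← pow_add]
    congr 1; omega
  rw [St_succ hG, hp]
  have hs := sum_wt d (1 / 2)
  have h3 : ∑ j ∈ Finset.range (d + 1), (d.choose j : ℝ) * ((1 / 2) ^ j * (1 - 1 / 2) ^ (d - j)) *
      St d s A n (x + j) (y + (d - j)) = c₂ + ∑ j ∈ Finset.range (d + 1),
      (d.choose j : ℝ) * ((1 / 2) ^ j * (1 - 1 / 2) ^ (d - j)) *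
        (St d s A n (x + j) (y + (d - j)) - c₂) := by
    have : ∑ j ∈ Finset.range (d + 1),
      (d.choose j : ℝ) * ((1 / 2) ^ j * (1 - 1 / 2) ^ (d - j)) *
        (St d s A n (x + j) (y + (d - j)) - c₂) = ∑ j ∈ Finset.range (d + 1),
        (d.choose j : ℝ) * ((1 / 2) ^ j * (1 - 1 / 2) ^ (d - j)) *
          St d s A n (x + j) (y + (d - j)) - (∑ j ∈ Finset.range (d + 1),
        (d.choose j : ℝ) * ((1 / 2) ^ j * (1 - 1 / 2) ^ (d - j))) * c₂ := by
      rw [Finset.sum_mul, ← Finset.sum_sub_distrib]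
      exact Finset.sum_congr rfl fun j _ => by ring
    rw [this, hs]
    ring
  rw [h3]
  have h4 := Finset.single_le_sum (f := fun j => (d.choose j : ℝ) *
      ((1 / 2) ^ j * (1 - 1 / 2) ^ (d - j)) * (St d s A n (x + j) (y + (d - j)) - c₂))
      (s := Finset.range (d + 1))
      (fun j hj => mul_nonneg (wt_nonneg (by norm_num) (by norm_num) j)
        (sub_nonneg.2 (h₂ j (by simpa [Nat.lt_succ_iff] using hj))))
      (Finset.mem_range.2 (Nat.lt_succ_of_le hj₀))
  have h5 : (1 / 2 : ℝ) ^ d * (c₁ - c₂) ≤ (d.choose j₀ : ℝ) *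
      ((1 / 2) ^ j₀ * (1 - 1 / 2) ^ (d - j₀)) * (St d s A n (x + j₀) (y + (d - j₀)) - c₂) := by
    rw [hw j₀ hj₀]
    have hch : (1 : ℝ) ≤ (d.choose j₀ : ℝ) := by
      exact_mod_cast Nat.choose_pos hj₀
    have h6 : (0 : ℝ) ≤ (1 / 2) ^ d := by positivity
    have h7 : (1 / 2 : ℝ) ^ d ≤ (d.choose j₀ : ℝ) * (1 / 2) ^ d :=
      le_mul_of_one_le_left h6 hch
    exact mul_le_mul h7 (by linarith) (by linarith) (by positivity)
  linarith

/-! ### Constants -/

/-- `2 ^ (-d)` -/
noncomputable def dl (d : ℕ) : ℝ := (1 / 2) ^ d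
/-- gain at a tie on a special class -/
noncomputable def aa (d : ℕ) : ℝ := 1 - dl d / 2
/-- rate in the random phase -/
noncomputable def qq (d : ℕ) : ℝ := 1 - dl d ^ 2 / 2
/-- total error from zone `k` on -/
noncomputable def EE (d k : ℕ) : ℝ := 4 / dl d ^ 2 * qq d ^ k

lemma dl_pos (d : ℕ) : 0 < dl d := by unfold dl; positivity
lemma dl_le (hd : 2 ≤ d) : dl d ≤ 1 / 4 := by
  unfold dl
  calc ((1 : ℝ) / 2) ^ d ≤ (1 / 2) ^ 2 := pow_le_pow_of_le_one (by norm_num) (by norm_num) hd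
    _ = 1 / 4 := by norm_num
lemma qq_pos (hd : 2 ≤ d) : 0 < qq d := by
  have := dl_pos d
  have := dl_le hd
  unfold qq; nlinarith
lemma qq_lt (d : ℕ) : qq d < 1 := by
  have := dl_pos d
  unfold qq; nlinarith
lemma EE_nonneg (hd : 2 ≤ d) (k : ℕ) : 0 ≤ EE d k := by
  have := dl_pos d
  have := qq_pos hd
  unfold EE; positivity
lemma EE_succ (d k : ℕ) : EE d k = EE d (k + 1) + 2 * qq d ^ k := by
  have h := dl_pos d
  have e : qq d ^ (k + 1) = qq d ^ k * (1 - dl d ^ 2 / 2) := by rw [pow_succ]; rfl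
  unfold EE
  rw [e]
  field_simp
  ring

lemma aq (hd : 2 ≤ d) : 1 - dl d ≤ aa d * qq d := by
  have h1 := dl_pos d
  have h2 := dl_le hd
  unfold aa qq
  nlinarith [mul_pos h1 (mul_pos h1 h1), mul_pos h1 h1]

lemma stage (hd : 2 ≤ d) (k : ℕ) :
    2 * qq d ^ (2 * 2 ^ k - 1 - 2 ^ k) + EE d (k + 1) ≤ EE d k := by
  rw [EE_succ d k]
  have h1 : k ≤ 2 * 2 ^ k - 1 - 2 ^ k := by
    have := Nat.lt_two_pow_self (n := k)
    omega
  have := pow_le_pow_of_le_one (qq_pos hd).le (qq_lt d).le h1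
  linarith

lemma lt_of_div {x t : ℕ} (hd : 2 ≤ d) (h : x / d < t) : x < t * d :=
  (Nat.div_lt_iff_lt_mul (by omega)).1 h

lemma W_step {k x y : ℕ} (hd : 2 ≤ d) (hx : Zone d k x) (hy : Zone d k y) (sx : Sp d s k x)
    (sy : Sp d s k y) (h : y < x) : Wt d s A y * 2 ^ (x + y + d) ≤ Wt d s A x := by
  rw [W_sp hx sx, W_sp hy sy, ← pow_add]
  refine pow_le_pow_right₀ (by norm_num) ?_
  have h1 := lt_of_div hd hx.2
  have h2 := lt_of_div hd hy.2
  have h3 : d ≤ 2 ^ k * d := Nat.le_mul_of_pos_left d (by positivity)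
  obtain ⟨z, rfl⟩ := Nat.exists_eq_add_of_lt h
  have e : 8 * d * 2 ^ k * (y + z + 1 + A k + A (k + 1)) =
      8 * d * 2 ^ k * (y + A k + A (k + 1)) + 8 * d * 2 ^ k * (z + 1) := by ring
  rw [e]
  have h4 : 8 * d * 2 ^ k * 1 ≤ 8 * d * 2 ^ k * (z + 1) := Nat.mul_le_mul_left _ (by omega)
  have e2 : 8 * d * 2 ^ k * 1 = 8 * (2 ^ k * d) := by ring
  have e3 : 2 * 2 ^ k * d = 2 * (2 ^ k * d) := by ring
  rw [e3] at h1 h2
  rw [e2] at h4
  omega

lemma W_step2 {k x y : ℕ} (hd : 2 ≤ d) (hx : x / d = 2 * 2 ^ k) (hy : Zone d k y)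
    (sx : ¬ Sp d s (k + 1) x) (sy : Sp d s k y) : Wt d s A x * 2 ^ (y + x + d) ≤ Wt d s A y := by
  have hxz : Zone d (k + 1) x := by
    refine ⟨?_, ?_⟩
    · rw [pow_succ]; omega
    · rw [pow_succ]
      have : 0 < 2 ^ k := by positivity
      omega
  rw [W_low hxz sx, W_sp hy sy, ← pow_add]
  refine pow_le_pow_right₀ (by norm_num) ?_
  have h1 := lt_of_div hd (show x / d < 2 * 2 ^ k + 1 by omega)
  have h2 := lt_of_div hd hy.2
  have h3 : d ≤ 2 ^ k * d := Nat.le_mul_of_pos_left d (by positivity)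
  have hy0 : 0 < y := by
    rcases Nat.eq_zero_or_pos y with h | h
    · have := hy.1
      rw [h, Nat.zero_div] at this
      have : 0 < 2 ^ k := by positivity
      omega
    · exact h
  have e : 8 * d * 2 ^ k * (y + A k + A (k + 1)) =
      8 * d * 2 ^ k * (y + A k) + 8 * d * 2 ^ k * A (k + 1) := by ring
  rw [e]
  have h4 : 8 * d * 2 ^ k * 1 ≤ 8 * d * 2 ^ k * (y + A k) := Nat.mul_le_mul_left _ (by omega)
  have h5 : 1 * A (k + 1) ≤ 8 * d * 2 ^ k * A (k + 1) :=
    Nat.mul_le_mul_right _ (Nat.mul_pos (by omega) (by positivity))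
  have e2 : 8 * d * 2 ^ k * 1 = 8 * (2 ^ k * d) := by ring
  have e3 : 2 * 2 ^ k * d = 2 * (2 ^ k * d) := by ring
  have e4 : (2 * 2 ^ k + 1) * d = 2 * (2 ^ k * d) + d := by ring
  rw [e3] at h2
  rw [e4] at h1
  rw [e2] at h4
  omega

/-- a possible number of black balls that leads to a special class -/
lemma exists_target (h : Adm d s) (k x : ℕ) : ∃ j, j ≤ d ∧ Sp d s k (x + j) := by
  have hd := h.1
  have hm := Nat.mod_lt x (by omega : 0 < d)
  have key : ∀ t, t < d → ∃ j, j ≤ d ∧ (x + j) % d = t := by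
    intro t ht
    refine ⟨(t + (d - x % d)) % d, (Nat.mod_lt _ (by omega)).le, ?_⟩
    rw [Nat.add_mod_mod]
    have e : x + (t + (d - x % d)) = t + (x / d + 1) * d := by
      have h := Nat.div_add_mod x d
      have h2 : (x / d + 1) * d = d * (x / d) + d := by ring
      rw [h2]
      omega
    rw [e, Nat.add_mul_mod_self_right, Nat.mod_eq_of_lt ht]
  obtain ⟨j, hj, h⟩ := key (tau s k) (tau_lt h k)
  exact ⟨j, hj, Or.inl h⟩

lemma main (had : Adm d s) (n : ℕ) : ∀ k x y, (x + y) % d = s → Zone d k y →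
    ((Zone d k x → Sp d s k x → y < x → 1 - EE d (k + 1) - (1 / 2) ^ (x + y) ≤ St d s A n x y) ∧
    (x / d = 2 * 2 ^ k → Sp d s k x → 1 - EE d (k + 1) - (1 / 2) ^ (x + y) ≤ St d s A n x y) ∧
    (Zone d k x → x = y → Sp d s k x →
      1 - 2 * aa d * qq d ^ (2 * 2 ^ k - 1 - max (x / d) (y / d)) - EE d (k + 1) -
        (1 / 2) ^ (x + y) ≤ St d s A n x y) ∧
    (Zone d k x →
      1 - 2 * qq d ^ (2 * 2 ^ k - 1 - max (x / d) (y / d)) - EE d (k + 1) -
        (1 / 2) ^ (x + y) ≤ St d s A n x y)) := by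
  have hd := had.1
  have hd0 : 0 < d := by omega
  have hq0 := (qq_pos hd).le
  have hq1 := (qq_lt d).le
  have hδ0 := dl_pos d
  have hδ1 := dl_le hd
  have ha1 : aa d ≤ 1 := by unfold aa; linarith
  have ha0 : 1 / 2 ≤ aa d := by unfold aa; linarith
  have hnn : ∀ k m b, 0 ≤ EE d (k + 1) ∧ 0 ≤ qq d ^ m ∧ (0 : ℝ) ≤ (1 / 2) ^ b := fun k m b =>
    ⟨EE_nonneg hd _, pow_nonneg hq0 _, by positivity⟩
  have haq : ∀ m, 0 ≤ aa d * qq d ^ m := fun m => mul_nonneg (by linarith) (pow_nonneg hq0 _)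
  induction n with
  | zero =>
    intro k x y hxy hy
    refine ⟨fun hx sx hlt => ?_, fun hx sx => ?_, fun hx he sx => ?_, fun hx => ?_⟩
    · rw [St_zero ⟨hxy, k, Or.inl ⟨hx, hy⟩⟩]
      have := hnn k 0 (x + y)
      linarith [this.1, this.2.2]
    · rw [St_zero ⟨hxy, k, Or.inr (Or.inl ⟨hx, hy, sx⟩)⟩]
      have := hnn k 0 (x + y)
      linarith [this.1, this.2.2]
    · rw [St_zero ⟨hxy, k, Or.inl ⟨hx, hy⟩⟩]
      have := hnn k 0 (x + y)
      have := haq (2 * 2 ^ k - 1 - max (x / d) (y / d))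
      linarith [(hnn k 0 (x + y)).1, (hnn k 0 (x + y)).2.2]
    · rw [St_zero ⟨hxy, k, Or.inl ⟨hx, hy⟩⟩]
      have := hnn k (2 * 2 ^ k - 1 - max (x / d) (y / d)) (x + y)
      linarith [this.1, this.2.1, this.2.2]
  | succ n ih =>
    -- the deterministic phases
    have hFa : ∀ k x y, (x + y) % d = s → Zone d k y → Zone d k x → Sp d s k x → y < x →
        1 - EE d (k + 1) - (1 / 2) ^ (x + y) ≤ St d s A (n + 1) x y := by
      intro k x y hxy hy hx sx hlt
      have hxy' : (x + d + y) % d = s := by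
        rw [show x + d + y = x + y + d by ring, Nat.add_mod_right]; exact hxy
      have sy := (Sp_iff had k hxy).1 sx
      refine step_det ⟨hxy, k, Or.inl ⟨hx, hy⟩⟩ (W_step hd hx hy sx sy hlt) ?_
      have hdiv : (x + d) / d = x / d + 1 := Nat.add_div_right x hd0
      rw [show x + y + d = x + d + y by ring]
      by_cases hlt2 : x / d + 1 < 2 * 2 ^ k
      · exact (ih k (x + d) y hxy' hy).1 ⟨by rw [hdiv]; have := hx.1; omega, by rw [hdiv]; exact hlt2⟩
          (Sp_add.2 sx) (by omega)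
      · exact (ih k (x + d) y hxy' hy).2.1 (by rw [hdiv]; have := hx.2; omega) (Sp_add.2 sx)
    intro k x y hxy hy
    have hF := hFa k x y hxy hy
    have hF2 : x / d = 2 * 2 ^ k → Sp d s k x →
        1 - EE d (k + 1) - (1 / 2) ^ (x + y) ≤ St d s A (n + 1) x y := by
      intro hx sx
      have sy := (Sp_iff had k hxy).1 sx
      rw [St_symm, add_comm x y]
      have hG : Gd d s x y := ⟨hxy, k, Or.inr (Or.inl ⟨hx, hy, sx⟩)⟩
      refine step_det (Gd_symm hG) (W_step2 hd hx hy (Sp_next had sx) sy) ?_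
      rw [St_symm, show y + x + d = x + (y + d) by ring]
      have hdiv : (y + d) / d = y / d + 1 := Nat.add_div_right y hd0
      have hxy2 : (x + (y + d)) % d = s := by
        rw [show x + (y + d) = x + y + d by ring, Nat.add_mod_right]; exact hxy
      by_cases hlt2 : y / d + 1 < 2 * 2 ^ k
      · exact (ih k x (y + d) hxy2 ⟨by rw [hdiv]; have := hy.1; omega, by rw [hdiv]; exact hlt2⟩).2.1
          hx sx
      · have hye : (y + d) / d = 2 * 2 ^ k := by rw [hdiv]; have := hy.2; omega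
        have hz : ∀ z, z / d = 2 * 2 ^ k → Zone d (k + 1) z := by
          intro z hz
          refine ⟨?_, ?_⟩
          · rw [pow_succ]; omega
          · rw [pow_succ]
            have : 0 < 2 ^ k := by positivity
            omega
        have h1 := (ih (k + 1) x (y + d) hxy2 (hz _ hye)).2.2.2 (hz _ hx)
        rw [hx, hye, max_self] at h1
        have h2 := stage hd (k + 1)
        rw [show (2 : ℕ) ^ (k + 1) = 2 * 2 ^ k by rw [pow_succ]; ring] at h2
        rw [show (2 : ℕ) ^ (k + 1) = 2 * 2 ^ k by rw [pow_succ]; ring] at h1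
        linarith
    -- preparation of the random steps
    have hR : Zone d k x → max (x / d) (y / d) + 1 < 2 * 2 ^ k → ∀ j, j ≤ d →
        (x + j + (y + (d - j))) % d = s ∧ Zone d k (x + j) ∧ Zone d k (y + (d - j)) ∧
        qq d ^ (2 * 2 ^ k - 1 - max ((x + j) / d) ((y + (d - j)) / d)) ≤
          qq d ^ (2 * 2 ^ k - 1 - max (x / d) (y / d) - 1) ∧
        (1 / 2 : ℝ) ^ (x + j + (y + (d - j))) ≤ (1 / 2) ^ (x + y) := by
      intro hx hM j hj
      have b1 : ∀ z i, i ≤ d → (z + i) / d ≤ z / d + 1 ∧ z / d ≤ (z + i) / d := by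
        intro z i hi
        refine ⟨?_, Nat.div_le_div_right (Nat.le_add_right _ _)⟩
        rw [← Nat.add_div_right z hd0]
        exact Nat.div_le_div_right (by omega)
      have c1 := b1 x j hj
      have c2 := b1 y (d - j) (by omega)
      have m1 := le_max_left (x / d) (y / d)
      have m2 := le_max_right (x / d) (y / d)
      have hx1 := hx.1
      have hy1 := hy.1
      refine ⟨?_, ⟨by omega, by omega⟩, ⟨by omega, by omega⟩, ?_, ?_⟩
      · rw [show x + j + (y + (d - j)) = x + y + d by omega, Nat.add_mod_right]; exact hxy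
      · apply pow_le_pow_of_le_one hq0 hq1
        have : max ((x + j) / d) ((y + (d - j)) / d) ≤ max (x / d) (y / d) + 1 :=
          max_le (by omega) (by omega)
        omega
      · exact pow_le_pow_of_le_one (by norm_num) (by norm_num) (by omega)
    have hpow : max (x / d) (y / d) + 1 < 2 * 2 ^ k →
        qq d ^ (2 * 2 ^ k - 1 - max (x / d) (y / d)) =
          qq d * qq d ^ (2 * 2 ^ k - 1 - max (x / d) (y / d) - 1) := by
      intro hM
      have e : 2 * 2 ^ k - 1 - max (x / d) (y / d) =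
          2 * 2 ^ k - 1 - max (x / d) (y / d) - 1 + 1 := by omega
      conv_lhs => rw [e]
      rw [pow_succ']
    have hT : Zone d k x → x = y → Sp d s k x →
        1 - 2 * aa d * qq d ^ (2 * 2 ^ k - 1 - max (x / d) (y / d)) - EE d (k + 1) -
          (1 / 2) ^ (x + y) ≤ St d s A (n + 1) x y := by
      intro hx he sx
      by_cases hM : max (x / d) (y / d) + 1 < 2 * 2 ^ k
      · have hG : Gd d s x y := ⟨hxy, k, Or.inl ⟨hx, hy⟩⟩
        have hR' := hR hx hM
        have hp := hpow hM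
        set Q := qq d ^ (2 * 2 ^ k - 1 - max (x / d) (y / d) - 1) with hQ
        have hQ0 : 0 ≤ Q := pow_nonneg hq0 _
        have h := step_rand (A := A) (n := n) hG (by rw [he])
          (c₁ := 1 - EE d (k + 1) - (1 / 2) ^ (x + y))
          (c₂ := 1 - 2 * Q - EE d (k + 1) - (1 / 2) ^ (x + y)) (by linarith) (j₀ := d) le_rfl ?_ ?_
        · refine le_trans ?_ h
          rw [hp]
          have h1 := mul_le_mul_of_nonneg_right (aq hd) hQ0
          have e : (1 / 2 : ℝ) ^ d = dl d := rfl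
          rw [e]
          nlinarith
        · obtain ⟨r1, r2, r3, r4, r5⟩ := hR' d le_rfl
          have := (ih k (x + d) (y + (d - d)) r1 r3).1 r2 (Sp_add.2 sx) (by omega)
          linarith
        · intro j hj
          obtain ⟨r1, r2, r3, r4, r5⟩ := hR' j hj
          have := (ih k (x + j) (y + (d - j)) r1 r3).2.2.2 r2
          linarith
      · have hx2 := hx.2
        have hy2 := hy.2
        have e : 2 * 2 ^ k - 1 - max (x / d) (y / d) = 0 := by omega
        rw [e, pow_zero, mul_one]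
        have := hnn k 0 (x + y)
        have h3 := St_nonneg (d := d) (s := s) (A := A) (n + 1) x y
        linarith [this.1, this.2.2]
    refine ⟨hF, hF2, hT, fun hx => ?_⟩
    by_cases sx : Sp d s k x
    · rcases lt_trichotomy x y with hlt | he | hlt
      · have := hFa k y x (by rw [add_comm]; exact hxy) hx hy ((Sp_iff had k hxy).1 sx) hlt
        rw [St_symm, add_comm y x] at this
        have h1 := hnn k (2 * 2 ^ k - 1 - max (x / d) (y / d)) 0
        linarith [h1.2.1]
      · have := hT hx he sx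
        have h1 := hnn k (2 * 2 ^ k - 1 - max (x / d) (y / d)) 0
        have : aa d * qq d ^ (2 * 2 ^ k - 1 - max (x / d) (y / d)) ≤
            1 * qq d ^ (2 * 2 ^ k - 1 - max (x / d) (y / d)) :=
          mul_le_mul_of_nonneg_right ha1 h1.2.1
        linarith
      · have := hF hx sx hlt
        have h1 := hnn k (2 * 2 ^ k - 1 - max (x / d) (y / d)) 0
        linarith [h1.2.1]
    · have sy : ¬ Sp d s k y := fun h => sx ((Sp_iff had k hxy).2 h)
      by_cases hM : max (x / d) (y / d) + 1 < 2 * 2 ^ k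
      · have hG : Gd d s x y := ⟨hxy, k, Or.inl ⟨hx, hy⟩⟩
        have hR' := hR hx hM
        have hp := hpow hM
        obtain ⟨j₀, hj₀, sj⟩ := exists_target had k x
        set Q := qq d ^ (2 * 2 ^ k - 1 - max (x / d) (y / d) - 1) with hQ
        have hQ0 : 0 ≤ Q := pow_nonneg hq0 _
        have haQ : aa d * Q ≤ 1 * Q := mul_le_mul_of_nonneg_right ha1 hQ0
        have haQ0 : 0 ≤ aa d * Q := mul_nonneg (by linarith) hQ0
        have h := step_rand (A := A) (n := n) hG (by rw [W_low hx sx, W_low hy sy])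
          (c₁ := 1 - 2 * aa d * Q - EE d (k + 1) - (1 / 2) ^ (x + y))
          (c₂ := 1 - 2 * Q - EE d (k + 1) - (1 / 2) ^ (x + y)) (by linarith) hj₀ ?_ ?_
        · refine le_trans (le_of_eq ?_) h
          rw [hp]
          have e : (1 / 2 : ℝ) ^ d = dl d := rfl
          rw [e]
          unfold aa qq
          ring
        · obtain ⟨r1, r2, r3, r4, r5⟩ := hR' j₀ hj₀
          obtain ⟨i1, i2, i3, i4⟩ := ih k (x + j₀) (y + (d - j₀)) r1 r3
          rcases lt_trichotomy (x + j₀) (y + (d - j₀)) with hlt | he | hlt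
          · have r1' : (y + (d - j₀) + (x + j₀)) % d = s := by rw [add_comm]; exact r1
            have := (ih k (y + (d - j₀)) (x + j₀) r1' r2).1 r3
              ((Sp_iff had k r1).1 sj) hlt
            rw [St_symm, add_comm (y + (d - j₀)) (x + j₀)] at this
            linarith
          · have h1 := i3 r2 he sj
            have h2 := mul_le_mul_of_nonneg_left r4 (by linarith : 0 ≤ aa d)
            linarith
          · have := i1 r2 sj hlt
            linarith
        · intro j hj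
          obtain ⟨r1, r2, r3, r4, r5⟩ := hR' j hj
          have := (ih k (x + j) (y + (d - j)) r1 r3).2.2.2 r2
          linarith
      · have hx2 := hx.2
        have hy2 := hy.2
        have e : 2 * 2 ^ k - 1 - max (x / d) (y / d) = 0 := by omega
        rw [e, pow_zero, mul_one]
        have := hnn k 0 (x + y)
        have h3 := St_nonneg (d := d) (s := s) (A := A) (n + 1) x y
        linarith [this.1, this.2.2]

/-- the start in the first block of zone `k` -/
lemma start (had : Adm d s) (n k : ℕ) :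
    1 - EE d k - (1 / 2) ^ k ≤ St d s A n (d * 2 ^ k) (d * 2 ^ k + s) := by
  have hd := had.1
  have hd0 : 0 < d := by omega
  have hs := had.2.1
  have hdiv : d * 2 ^ k / d = 2 ^ k := Nat.mul_div_cancel_left _ hd0
  have hdiv2 : (d * 2 ^ k + s) / d = 2 ^ k := by
    rw [Nat.mul_add_div hd0, Nat.div_eq_of_lt hs, add_zero]
  have hp : 0 < 2 ^ k := by positivity
  have hz : Zone d k (d * 2 ^ k) := ⟨hdiv.ge, by rw [hdiv]; omega⟩
  have hz2 : Zone d k (d * 2 ^ k + s) := ⟨hdiv2.ge, by rw [hdiv2]; omega⟩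
  have h0 : (d * 2 ^ k + (d * 2 ^ k + s)) % d = s := by
    rw [show d * 2 ^ k + (d * 2 ^ k + s) = s + d * (2 * 2 ^ k) by ring, Nat.add_mul_mod_self_left,
      Nat.mod_eq_of_lt hs]
  have h := (main (A := A) had n k (d * 2 ^ k) (d * 2 ^ k + s) h0 hz2).2.2.2 hz
  rw [hdiv, hdiv2, max_self] at h
  have h2 := stage hd k
  have h3 : k ≤ d * 2 ^ k + (d * 2 ^ k + s) := by
    have h4 := Nat.lt_two_pow_self (n := k)
    have h5 : 1 * 2 ^ k ≤ d * 2 ^ k := Nat.mul_le_mul_right _ hd0
    omega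
  have h4 : (1 / 2 : ℝ) ^ (d * 2 ^ k + (d * 2 ^ k + s)) ≤ (1 / 2) ^ k :=
    pow_le_pow_of_le_one (by norm_num) (by norm_num) h3
  linarith

lemma error_tendsto (hd : 2 ≤ d) : Tendsto (fun k : ℕ => EE d k + (1 / 2 : ℝ) ^ k) atTop (𝓝 0) := by
  have h1 : Tendsto (fun k : ℕ => EE d k) atTop (𝓝 0) := by
    have := (tendsto_pow_atTop_nhds_zero_of_lt_one (qq_pos hd).le (qq_lt d)).const_mul
      (4 / dl d ^ 2)
    simpa [EE] using this
  have h2 : Tendsto (fun k : ℕ => (1 / 2 : ℝ) ^ k) atTop (𝓝 0) :=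
    tendsto_pow_atTop_nhds_zero_of_lt_one (by norm_num) (by norm_num)
  simpa using h1.add h2

/-- survival in a larger set -/
lemma surv_mono {W : ℕ → ℝ} (hW : ∀ n, 0 ≤ W n) (G G' : ℕ → ℕ → Prop)
    [∀ b r, Decidable (G b r)] [∀ b r, Decidable (G' b r)] (h : ∀ b r, G b r → G' b r)
    (n b r : ℕ) : surv d W G n b r ≤ surv d W G' n b r := by
  induction n generalizing b r with
  | zero =>
    unfold surv
    by_cases hG : G b r
    · rw [if_pos hG, if_pos (h b r hG)]
    · rw [if_neg hG]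
      split_ifs <;> norm_num
  | succ n ih =>
    by_cases hG : G b r
    · unfold surv
      rw [if_pos hG, if_pos (h b r hG)]
      refine Finset.sum_le_sum fun j _ => ?_
      exact mul_le_mul_of_nonneg_left (ih _ _)
        (wt_nonneg (pr_nonneg hW b r) (pr_le_one hW b r) j)
    · have h0 : surv d W G (n + 1) b r = 0 := by unfold surv; rw [if_neg hG]
      rw [h0]
      exact surv_nonneg hW G' _ _ _

/-- states with at most `D` black and at most `E` red balls lead with positive probability to the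
state with `D` black and `E` red balls. -/
lemma path {W : ℕ → ℝ} (hW : ∀ n, 0 < W n) (G' : ℕ → ℕ → Prop)
    [∀ b r, Decidable (G' b r)] {D E : ℕ} (hd : 0 < d) (hG' : ∀ b r, b + r < D + E → G' b r)
    {v₀ : ℝ} (hv₀ : 0 < v₀) (h₀ : ∀ n, v₀ ≤ surv d W G' n D E) (t : ℕ) :
    ∀ b r, b ≤ D → r ≤ E → b + r + t * d = D + E → ∃ v : ℝ, 0 < v ∧ v ≤ 1 ∧
      (∀ n, v ≤ surv d W G' n b r) := by
  induction t with
  | zero =>
    intro b r hb hr h
    obtain rfl : b = D := by omega
    obtain rfl : r = E := by omega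
    exact ⟨min v₀ 1, lt_min hv₀ one_pos, min_le_right _ _, fun n => (min_le_left _ _).trans (h₀ n)⟩
  | succ t ih =>
    intro b r hb hr h
    have hexp : (t + 1) * d = t * d + d := by ring
    rw [hexp] at h
    set j := min d (D - b) with hj
    have hjd : j ≤ d := min_le_left _ _
    obtain ⟨v, hv, hv1, hs⟩ := ih (b + j) (r + (d - j)) (by omega) (by omega) (by omega)
    have hWn : ∀ n, 0 ≤ W n := fun n => (hW n).le
    have q0 : 0 < pr W b r := by
      unfold pr
      have := hW b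
      have := hW r
      positivity
    have q1 : 0 < 1 - pr W b r := by
      have e : 1 - pr W b r = W r / (W b + W r) := by
        unfold pr
        have := hW b
        have := hW r
        field_simp
        ring
      rw [e]
      have := hW b
      have := hW r
      positivity
    have hc : 0 < (d.choose j : ℝ) := by exact_mod_cast Nat.choose_pos hjd
    set w := (d.choose j : ℝ) * (pr W b r ^ j * (1 - pr W b r) ^ (d - j)) with hw
    have hw0 : 0 < w := by positivity
    refine ⟨min (w * v) 1, lt_min (mul_pos hw0 hv) one_pos, min_le_right _ _, fun n => ?_⟩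
    have hGb : G' b r := hG' b r (by omega)
    rcases n with _ | n
    · unfold surv
      rw [if_pos hGb]
      exact min_le_right _ _
    · unfold surv
      rw [if_pos hGb]
      refine (min_le_left _ _).trans ?_
      have h1 := Finset.single_le_sum (f := fun j => (d.choose j : ℝ) *
        (pr W b r ^ j * (1 - pr W b r) ^ (d - j)) * surv d W G' n (b + j) (r + (d - j)))
        (s := Finset.range (d + 1))
        (fun j _ => mul_nonneg (wt_nonneg q0.le (by linarith) j) (surv_nonneg hWn G' _ _ _))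
        (Finset.mem_range.2 (Nat.lt_succ_of_le hjd))
      refine le_trans ?_ h1
      exact mul_le_mul_of_nonneg_left (hs n) hw0.le

/-- If on `G` both totals are comparable up to a constant, monopoly is excluded on `G for ever`. -/
lemma monopoly_le' {Ω : Type*} [MeasurableSpace Ω] {μ : Measure Ω} [IsProbabilityMeasure μ]
    {X : ℕ → Ω → Conf d} {W : ℕ → ℝ} {c₀ : Conf d} (hd : 0 < d) (hW : ∀ n, 0 ≤ W n)
    (h : IsUrn μ X W c₀) (G : ℕ → ℕ → Prop) [∀ b r, Decidable (G b r)] (C : ℕ)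
    (hG : ∀ b r, G b r → b ≤ 3 * r + C ∧ r ≤ 3 * b + C) {v : ℝ} (hv0 : 0 ≤ v)
    (hv : ∀ n, v ≤ surv d W G n (blk c₀) (red c₀)) :
    μ {ω | Monopoly (fun n => X n ω)} ≤ ENNReal.ofReal (1 - v) := by
  have hm : MeasurableSet {ω | ∀ j, G (blk (X j ω)) (red (X j ω)) ∧
      Adds d (X j ω) (X (j + 1) ω)} := by
    have : {ω | ∀ j, G (blk (X j ω)) (red (X j ω)) ∧ Adds d (X j ω) (X (j + 1) ω)} =
      ⋂ j : ℕ, (fun ω => (X j ω, X (j + 1) ω)) ⁻¹'
        {c | G (blk c.1) (red c.1) ∧ Adds d c.1 c.2} := by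
      ext ω; simp
    rw [this]
    exact MeasurableSet.iInter fun j =>
      ((h.meas j).prodMk (h.meas (j + 1))) (Set.to_countable _).measurableSet
  have hsub : {ω | Monopoly (fun n => X n ω)} ⊆ {ω | ∀ j, G (blk (X j ω)) (red (X j ω)) ∧
      Adds d (X j ω) (X (j + 1) ω)}ᶜ := by
    intro ω hω hgood
    have htot : ∀ n, n ≤ blk (X n ω) + red (X n ω) := by
      intro n
      induction n with
      | zero => exact Nat.zero_le _
      | succ n ih =>
        have := (hgood n).2
        unfold Adds at this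
        omega
    rcases hω with ⟨m, hmon⟩ | ⟨m, hmon⟩
    · have hc : ∀ n, red (X (m + n) ω) = red (X m ω) := by
        intro n
        induction n with
        | zero => rfl
        | succ n ih => rw [← ih]; exact hmon (m + n) (by omega)
      have h1 := htot (m + (4 * red (X m ω) + C + 1))
      have h2 := (hG _ _ (hgood (m + (4 * red (X m ω) + C + 1))).1).1
      rw [hc] at h1 h2
      omega
    · have hc : ∀ n, blk (X (m + n) ω) = blk (X m ω) := by
        intro n
        induction n with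
        | zero => rfl
        | succ n ih => rw [← ih]; exact hmon (m + n) (by omega)
      have h1 := htot (m + (4 * blk (X m ω) + C + 1))
      have h2 := (hG _ _ (hgood (m + (4 * blk (X m ω) + C + 1))).1).2
      rw [hc] at h1 h2
      omega
  refine (measure_mono hsub).trans ?_
  rw [prob_compl_eq_one_sub hm, ENNReal.ofReal_sub _ hv0, ENNReal.ofReal_one]
  exact tsub_le_tsub_left (good_forever hW h G hv) _

/-- exponents for a sequence above `g` -/
noncomputable def expo (d : ℕ) (g : ℕ → ℝ) (k : ℕ) : ℕ :=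
  d * 2 ^ (k + 1) + ∑ n ∈ Finset.range (d * 2 ^ (k + 1) + 1), ⌈|g n|⌉₊

lemma lt_end (hd : 2 ≤ d) (n : ℕ) : n < d * 2 ^ (Nat.log 2 (n / d) + 1) := by
  have h := Nat.lt_pow_succ_log_self (b := 2) (by norm_num) (n / d)
  rw [mul_comm]
  exact (Nat.div_lt_iff_lt_mul (by omega)).1 h

lemma g_le (hd : 2 ≤ d) (g : ℕ → ℝ) (n : ℕ) : g n ≤ Wt d s (expo d g) n := by
  refine le_trans ?_ (Wt_ge hd (expo d g) n)
  have h1 := lt_end hd n
  set k := Nat.log 2 (n / d)
  have h2 : ⌈|g n|⌉₊ ≤ expo d g k := by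
    unfold expo
    have := Finset.single_le_sum (f := fun n => ⌈|g n|⌉₊)
      (s := Finset.range (d * 2 ^ (k + 1) + 1)) (fun _ _ => Nat.zero_le _)
      (Finset.mem_range.2 (show n < d * 2 ^ (k + 1) + 1 by omega))
    omega
  have h3 : expo d g k ≤ 2 ^ expo d g k := (Nat.lt_two_pow_self).le
  calc g n ≤ |g n| := le_abs_self _
    _ ≤ (⌈|g n|⌉₊ : ℝ) := Nat.le_ceil _
    _ ≤ ((2 ^ expo d g k : ℕ) : ℝ) := by exact_mod_cast h2.trans h3
    _ = 2 ^ expo d g k := by push_cast; rfl

lemma strong (hd : 2 ≤ d) (g : ℕ → ℝ) : Summable fun n => 1 / Wt d s (expo d g) n := by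
  refine Summable.of_nonneg_of_le (fun n => by have := Wt_pos d s (expo d g) n; positivity)
    (fun n => ?_) (summable_geometric_two)
  rw [one_div_pow]
  refine one_div_le_one_div_of_le (by positivity) ?_
  refine le_trans (pow_le_pow_right₀ (by norm_num) ?_) (Wt_ge hd (expo d g) n)
  have := lt_end hd n
  unfold expo
  omega

end

universe u

/-- **Monopoly can fail for every number of urns, for arbitrarily fast reinforcement and from
every initial composition (for two urns: with an even number of balls).** -/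
theorem result (d : ℕ) (hd : 2 ≤ d) (s : ℕ) (hs : d = 2 → Even s) (g : ℕ → ℝ) :
    ∃ W : ℕ → ℝ, (∀ n, 0 < W n) ∧ (∀ n, g n ≤ W n) ∧ Summable (fun n => 1 / W n) ∧
      (∀ c₀ : Conf d, ∃ μ : Measure (ℕ → Conf d), IsProbabilityMeasure μ ∧
        IsUrn μ (fun n ω => ω n) W c₀) ∧
      (∀ c₀ : Conf d, blk c₀ + red c₀ ≡ s [MOD d] → ∃ p : ℝ, p < 1 ∧
        ∀ (Ω : Type u) [MeasurableSpace Ω] (μ : Measure Ω) [IsProbabilityMeasure μ]
          (X : ℕ → Ω → Conf d), IsUrn μ X W c₀ →
            μ {ω | Monopoly (fun n => X n ω)} ≤ ENNReal.ofReal p) ∧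
      (∀ ε : ℝ, 0 < ε → ∃ K : ℕ, ∀ k, K ≤ k → ∀ c₀ : Conf d,
        blk c₀ = d * 2 ^ k → red c₀ = d * 2 ^ k + s % d →
        ∀ (Ω : Type u) [MeasurableSpace Ω] (μ : Measure Ω) [IsProbabilityMeasure μ]
          (X : ℕ → Ω → Conf d), IsUrn μ X W c₀ →
            μ {ω | Monopoly (fun n => X n ω)} ≤ ENNReal.ofReal ε) := by
  have hd0 : 0 < d := by omega
  set A := expo d g with hA
  have hlim := error_tendsto hd
  have had : Adm d (s % d) := by
    refine ⟨hd, Nat.mod_lt _ hd0, fun h => ?_⟩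
    have := Nat.even_iff.1 (hs h)
    rw [h]
    exact this
  refine ⟨Wt d (s % d) A, Wt_pos d _ A, g_le hd g, strong hd g,
    fun c₀ => exists_urn (Wt_nonneg d _ A) c₀, fun c₀ hdvd => ?_, fun ε hε => ?_⟩
  · obtain ⟨k, hk, hkb⟩ := ((hlim.eventually_le_const (show (0 : ℝ) < 1 / 2 by norm_num)).and
      (eventually_ge_atTop (blk c₀ + red c₀))).exists
    have hv : ∀ n, (1 / 2 : ℝ) ≤ surv d (Wt d (s % d) A) (Gd d (s % d)) n (d * 2 ^ k)
        (d * 2 ^ k + s % d) := by
      intro n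
      have := start (A := A) had n k
      unfold St at this
      linarith
    have hkD : k ≤ d * 2 ^ k := by
      have h4 := Nat.lt_two_pow_self (n := k)
      have h5 : 1 * 2 ^ k ≤ d * 2 ^ k := Nat.mul_le_mul_right _ hd0
      omega
    obtain ⟨t, ht⟩ : ∃ t, blk c₀ + red c₀ + t * d = d * 2 ^ k + (d * 2 ^ k + s % d) := by
      have h1 : blk c₀ + red c₀ ≡ d * 2 ^ k + (d * 2 ^ k + s % d) [MOD d] := by
        refine hdvd.trans ?_
        show s % d = (d * 2 ^ k + (d * 2 ^ k + s % d)) % d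
        rw [show d * 2 ^ k + (d * 2 ^ k + s % d) = s % d + d * (2 * 2 ^ k) by ring,
          Nat.add_mul_mod_self_left, Nat.mod_mod]
      obtain ⟨t, ht⟩ := (Nat.modEq_iff_dvd' (by omega)).1 h1
      refine ⟨t, ?_⟩
      rw [mul_comm t d, ← ht]
      omega
    set D := d * 2 ^ k with hD
    set E := D + s % d with hE
    let G' : ℕ → ℕ → Prop := fun b r => Gd d (s % d) b r ∨ b + r < D + E
    have : ∀ b r, Decidable (G' b r) := fun _ _ => Classical.dec _
    obtain ⟨v, hv0, hv1, hs⟩ := path (d := d) (Wt_pos d (s % d) A) G' hd0 (fun b r h => Or.inr h)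
      (show (0 : ℝ) < 1 / 2 by norm_num)
      (fun n => (hv n).trans (surv_mono (Wt_nonneg d (s % d) A) (Gd d (s % d)) G'
        (fun b r h => Or.inl h) n D E))
      t (blk c₀) (red c₀) (by omega) (by omega) ht
    refine ⟨1 - v, by linarith, ?_⟩
    intro Ω _ μ _ X h
    refine monopoly_le' hd0 (Wt_nonneg d (s % d) A) h G' (D + E + 1) ?_ hv0.le hs
    rintro b r (hG | hG)
    · have := Gd_le hd b r hG
      omega
    · omega
  · obtain ⟨K, hK⟩ := eventually_atTop.1
      (hlim.eventually_le_const (show (0 : ℝ) < min ε 1 from lt_min hε one_pos))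
    refine ⟨K, fun k hk c₀ hb hr Ω _ μ _ X h => ?_⟩
    have h1 := hK k hk
    refine (monopoly_le hd0 (Wt_nonneg d (s % d) A) h (Gd d (s % d)) (Gd_le hd)
      (v := 1 - (EE d k + (1 / 2) ^ k)) ?_ ?_).trans (ENNReal.ofReal_le_ofReal ?_)
    · have := h1.trans (min_le_right _ _)
      linarith
    · intro n
      rw [hb, hr]
      have := start (A := A) had n k
      unfold St at this
      linarith
    · have := h1.trans (min_le_left _ _)
      linarith

end Pool.Agent.Results.MP_0b3b8e_pr.EveryNumberOfUrns
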